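import Pool.Agent.F3.Targets
import Pool.Agent.NW.NibbleOfLin

/-!
# Project F3: adjusting the invariants modulo six (`World.adj`)
-/

set_option autoImplicit false
set_option linter.unusedSectionVars false

namespace F3

open Finset NW F1

section Adj

variable {V : Type} [Fintype V] [DecidableEq V]

theorem tri_eq {T T' : Tri V} {e f : Sym2 V} (hef : e ≠ f) (h1 : e ∈ NW.edg T.1)
    (h2 : f ∈ NW.edg T.1) (h3 : e ∈ NW.edg T'.1) (h4 : f ∈ NW.edg T'.1) : T = T' := by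
  by_contra hne
  have h := NW.edg_lin T.2 T'.2 (fun h => hne (Subtype.ext h))
  have h5 : ({e, f} : Finset (Sym2 V)) ⊆ NW.edg T.1 ∩ NW.edg T'.1 := by
    intro x hx
    rw [mem_insert, mem_singleton] at hx
    rcases hx with rfl | rfl
    · exact mem_inter.2 ⟨h1, h3⟩
    · exact mem_inter.2 ⟨h2, h4⟩
  have h6 := card_le_card h5
  rw [card_pair hef] at h6
  omega

theorem card_le_of_vtr {al : Tri V → Prop} {X Y : Finset (Sym2 V)} {e : Sym2 V}
    (h : ∀ T : Tri V, al T → e ∈ NW.edg T.1 → NW.edg T.1 \ {e} ⊆ X →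
      ∃ f ∈ Y, f ≠ e ∧ f ∈ NW.edg T.1) : (vtr al X e).card ≤ Y.card := by
  classical
  have h' : ∀ T ∈ vtr al X e, ∃ f ∈ Y, f ≠ e ∧ f ∈ NW.edg T.1 := by
    intro T hT
    unfold vtr at hT
    rw [mem_filter] at hT
    exact h T hT.2.1 hT.2.2.1 hT.2.2.2
  have he : ∀ T ∈ vtr al X e, e ∈ NW.edg T.1 := by
    intro T hT
    unfold vtr at hT
    rw [mem_filter] at hT
    exact hT.2.2.1
  have : Nonempty (Sym2 V) := ⟨e⟩
  choose! f hf using h'
  refine card_le_card_of_injOn f (fun T hT => (hf T hT).1) ?_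
  intro T hT T' hT' hTT
  have hT1 := hf T hT
  have hT2 := hf T' hT'
  refine tri_eq hT1.2.1 hT1.2.2 (he T hT) ?_ (he T' hT')
  rw [hTT]
  exact hT2.2.2

theorem adj0 {H E0 X : Finset (Sym2 V)} {γ : Fin 0 → Sym2 V → ℤ} : AdjOK H E0 X γ :=
  fun _ _ _ => ⟨∅, empty_subset _, by simp, fun j => j.elim0⟩

theorem adj1 {H E0 X : Finset (Sym2 V)} {γ : Fin 1 → Sym2 V → ℤ}
    (h : 5 ≤ (X.filter (fun e => γ 0 e = -1)).card) : AdjOK H E0 X γ := by
  intro D hD hXD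
  set s : ℤ := ∑ e ∈ D, γ 0 e with hs
  obtain ⟨k, hk5, hk⟩ : ∃ k : ℕ, k ≤ 5 ∧ (6 : ℤ) ∣ s + k :=
    ⟨((-s) % 6).toNat, by omega, by omega⟩
  obtain ⟨R, hR, hRc⟩ := exists_subset_card_eq (hk5.trans h)
  have hRX : R ⊆ X := hR.trans (filter_subset _ _)
  refine ⟨R, hRX, by omega, fun j => ?_⟩
  obtain rfl : j = 0 := Subsingleton.elim _ _
  have h1 : ∑ e ∈ D \ R, γ 0 e + ∑ e ∈ R, γ 0 e = s := sum_sdiff (hRX.trans hXD)
  have h2 : ∑ e ∈ R, γ 0 e = -(k : ℤ) := by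
    rw [sum_congr rfl (fun e he => (mem_filter.1 (hR he)).2), sum_const, hRc]
    simp
  have h3 : ∑ e ∈ D \ R, γ 0 e = s + k := by omega
  rw [h3]
  exact hk

theorem adj2 {H E0 X : Finset (Sym2 V)} {γ : Fin 2 → Sym2 V → ℤ}
    (h3 : ∀ e ∈ H ∪ E0, (3 : ℤ) ∣ γ 0 e - γ 1 e)
    (hx : 1 ≤ (X.filter (fun e => γ 0 e = 2 ∧ γ 1 e = -1)).card)
    (hz : 5 ≤ (X.filter (fun e => γ 0 e = -1 ∧ γ 1 e = -1)).card) : AdjOK H E0 X γ := by
  intro D hD hXD
  set s : ℤ := ∑ e ∈ D, γ 0 e with hs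
  set t : ℤ := ∑ e ∈ D, γ 1 e with ht
  obtain ⟨q, hq⟩ : (3 : ℤ) ∣ s - t := by
    rw [hs, ht, ← sum_sub_distrib]
    exact dvd_sum fun e he => h3 e (hD he)
  obtain ⟨x, hx1, hxq⟩ : ∃ x : ℕ, x ≤ 1 ∧ (2 : ℤ) ∣ q - x := ⟨(q % 2).toNat, by omega, by omega⟩
  obtain ⟨z, hz5, hz6⟩ : ∃ z : ℕ, z ≤ 5 ∧ (6 : ℤ) ∣ s - 2 * x + z :=
    ⟨((-(s - 2 * x)) % 6).toNat, by omega, by omega⟩
  obtain ⟨P, hP, hPc⟩ := exists_subset_card_eq (hx1.trans hx)
  obtain ⟨Q, hQ, hQc⟩ := exists_subset_card_eq (hz5.trans hz)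
  have hPX : P ⊆ X := hP.trans (filter_subset _ _)
  have hQX : Q ⊆ X := hQ.trans (filter_subset _ _)
  have hPQ : Disjoint P Q := by
    rw [disjoint_left]
    intro e he he'
    have h1 := (mem_filter.1 (hP he)).2.1
    have h2 := (mem_filter.1 (hQ he')).2.1
    omega
  have hc : (P ∪ Q).card ≤ 36 := by
    have := card_union_le P Q
    omega
  refine ⟨P ∪ Q, union_subset hPX hQX, hc, fun j => ?_⟩
  have hP0 : ∑ e ∈ P, γ 0 e = 2 * (x : ℤ) := by
    rw [sum_congr rfl (fun e he => (mem_filter.1 (hP he)).2.1), sum_const, hPc]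
    simp [mul_comm]
  have hP1 : ∑ e ∈ P, γ 1 e = -(x : ℤ) := by
    rw [sum_congr rfl (fun e he => (mem_filter.1 (hP he)).2.2), sum_const, hPc]
    simp
  have hQ0 : ∑ e ∈ Q, γ 0 e = -(z : ℤ) := by
    rw [sum_congr rfl (fun e he => (mem_filter.1 (hQ he)).2.1), sum_const, hQc]
    simp
  have hQ1 : ∑ e ∈ Q, γ 1 e = -(z : ℤ) := by
    rw [sum_congr rfl (fun e he => (mem_filter.1 (hQ he)).2.2), sum_const, hQc]
    simp
  have h4 : ∀ j, ∑ e ∈ D \ (P ∪ Q), γ j e + (∑ e ∈ P, γ j e + ∑ e ∈ Q, γ j e) =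
      ∑ e ∈ D, γ j e := by
    intro j
    rw [← sum_union hPQ]
    exact sum_sdiff ((union_subset hPX hQX).trans hXD)
  have h40 := h4 0
  have h41 := h4 1
  rw [hP0, hQ0, ← hs] at h40
  rw [hP1, hQ1, ← ht] at h41
  fin_cases j
  · show (6 : ℤ) ∣ ∑ e ∈ D \ (P ∪ Q), γ 0 e
    omega
  · show (6 : ℤ) ∣ ∑ e ∈ D \ (P ∪ Q), γ 1 e
    omega

/-! ### The weights of pairs -/

theorem gam_mk (χ : V → Bool) (u v : V) : gam χ s(u, v) = if χ u = χ v then 2 else -1 := by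
  unfold gam
  have : Int χ s(u, v) ↔ χ u = χ v := by
    unfold Int
    constructor
    · intro h
      exact h u (by simp) v (by simp)
    · intro h a ha b hb
      rw [Sym2.mem_iff] at ha hb
      rcases ha with rfl | rfl <;> rcases hb with rfl | rfl <;> simp [h]
  simp only [this]

theorem Int_mk (χ : V → Bool) (u v : V) : Int χ s(u, v) ↔ χ u = χ v := by
  unfold Int
  constructor
  · intro h
    exact h u (by simp) v (by simp)
  · intro h a ha b hb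
    rw [Sym2.mem_iff] at ha hb
    rcases ha with rfl | rfl <;> rcases hb with rfl | rfl <;> simp [h]

theorem Exc_mk (sd pt : V → Bool) (u v : V) : Exc sd pt s(u, v) ↔ sd u = sd v ∧ pt u = pt v := by
  unfold Exc
  constructor
  · intro h
    exact h u (by simp) v (by simp)
  · intro h a ha b hb
    rw [Sym2.mem_iff] at ha hb
    rcases ha with rfl | rfl <;> rcases hb with rfl | rfl <;> simp [h.1, h.2]

/-- the third vertex of a triangle -/
theorem third {T : Tri V} {u v : V} (h : s(u, v) ∈ NW.edg T.1) :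
    ∃ w, w ≠ u ∧ w ≠ v ∧ u ≠ v ∧ T.1 = {u, v, w} := by
  obtain ⟨hu, hv, huv⟩ := NW.mk_mem_edg.1 h
  have h1 : (T.1 \ {u, v}).card = 1 := by
    rw [card_sdiff_of_subset (by
      intro x hx
      rw [mem_insert, mem_singleton] at hx
      rcases hx with rfl | rfl <;> assumption), T.2, card_pair huv]
  obtain ⟨w, hw⟩ := card_eq_one.1 h1
  have hwT : w ∈ T.1 \ {u, v} := by rw [hw]; exact mem_singleton_self w
  rw [mem_sdiff, mem_insert, mem_singleton, not_or] at hwT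
  refine ⟨w, hwT.2.1, hwT.2.2, huv, ?_⟩
  ext x
  simp only [mem_insert, mem_singleton]
  constructor
  · intro hx
    by_contra hne
    push Not at hne
    have : x ∈ T.1 \ {u, v} := by
      rw [mem_sdiff, mem_insert, mem_singleton, not_or]
      exact ⟨hx, hne.1, hne.2.1⟩
    rw [hw, mem_singleton] at this
    exact hne.2.2 this
  · rintro (rfl | rfl | rfl)
    · exact hu
    · exact hv
    · exact hwT.1

end Adj

end F3
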