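import Pool.Agent.F3.Inst.NS

/-!
# Project F3: world G
-/

set_option autoImplicit false
set_option linter.unusedSectionVars false

namespace F3

open Finset NW F1

section X

variable {V : Type} [Fintype V] [DecidableEq V]

/-- the weight with designated edges as a family -/
def gX (De : Finset (Sym2 V)) (sd : V → Bool) : Fin 1 → Sym2 V → ℤ := fun _ => gamX De sd

theorem gamX_eq {De : Finset (Sym2 V)} (sd : V → Bool) {e : Sym2 V} (he : e ∉ De) :
    gamX De sd e = gam sd e := by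
  unfold gamX
  rw [if_neg he]

theorem sum_gamX {De D : Finset (Sym2 V)} (sd : V → Bool) (hD : Disjoint D De) :
    ∑ e ∈ D, gamX De sd e = ∑ e ∈ D, gam sd e :=
  sum_congr rfl fun _ he => gamX_eq sd (disjoint_left.1 hD he)

theorem abs_gam_le (χ : V → Bool) (e : Sym2 V) : |gam χ e| ≤ 4 := by
  unfold gam
  split_ifs <;> norm_num

theorem abs_gamX_le (De : Finset (Sym2 V)) (sd : V → Bool) (e : Sym2 V) : |gamX De sd e| ≤ 4 := by
  unfold gamX
  split_ifs
  · norm_num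
  · exact abs_gam_le sd e

/-- the total with designated edges is zero -/
theorem WX.totX {E De H : Finset (Sym2 V)} {sd : V → Bool} {At : Finset V} {ε θ c : ℝ}
    (h : WX E De H sd At ε θ c) : ∑ e ∈ E, gamX De sd e = 0 := by
  have h1 : ∑ e ∈ E \ De, gamX De sd e + ∑ e ∈ De, gamX De sd e = ∑ e ∈ E, gamX De sd e :=
    sum_sdiff h.De_sub
  have h2 : ∑ e ∈ E \ De, gam sd e + ∑ e ∈ De, gam sd e = ∑ e ∈ E, gam sd e :=
    sum_sdiff h.De_sub
  have h3 : ∑ e ∈ De, gamX De sd e = -4 * (De.card : ℤ) := by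
    rw [sum_congr rfl (g := fun _ => (-4 : ℤ)) (fun e he => by unfold gamX; rw [if_pos he]),
      sum_const]
    simp [mul_comm]
  have h4 : ∑ e ∈ De, gam sd e = 2 * (De.card : ℤ) := by
    rw [sum_congr rfl (g := fun _ => (2 : ℤ))
      (fun e he => by unfold gam; rw [if_pos (h.De_int e he)]), sum_const]
    simp [mul_comm]
  have h5 : ∑ e ∈ E \ De, gamX De sd e = ∑ e ∈ E \ De, gam sd e :=
    sum_gamX sd disjoint_sdiff_self_left
  have h6 := h.tot
  rw [← h1, h3, h5]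
  rw [← h2, h4] at h6
  linarith

/-- enough cross edges in the reserve -/
theorem WX.adj {E De H : Finset (Sym2 V)} {sd : V → Bool} {At : Finset V} {ε θ c : ℝ}
    (h : WX E De H sd At ε θ c) (hε : ε ≤ 1 / 8) (hV : 1 ≤ Fintype.card V) {X E0 : Finset (Sym2 V)}
    (hXH : X ⊆ H) (hX : ∀ e ∈ E, 12 ≤ (vtr (alX De sd) X e).card) : AdjOK H E0 X (gX De sd) := by
  have hpos : (0 : ℝ) < nn V := by
    unfold nn
    exact_mod_cast hV
  obtain ⟨v⟩ : Nonempty V := Fintype.card_pos_iff.1 (by omega)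
  have h1 : (0 : ℝ) < (dc sd E v : ℝ) := lt_of_lt_of_le (by nlinarith) (h.cross v)
  have h2 : 0 < (nbr E v ∩ Sd sd (!sd v)).card := by
    unfold dc at h1
    exact_mod_cast h1
  obtain ⟨w, hw⟩ := card_pos.1 h2
  rw [mem_inter, mem_nbr] at hw
  obtain ⟨hvw, hw⟩ := hw
  have hne : sd v ≠ sd w := by
    unfold Sd at hw
    rw [mem_filter] at hw
    intro hh
    rw [← hh] at hw
    revert hw
    cases sd v <;> simp
  refine adj1 (le_trans (by norm_num) ((hX _ hvw).trans (card_le_of_vtr ?_)))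
  intro T hT he hsub
  obtain ⟨u, hu1, hu2, huv, hTe⟩ := third he
  have hXe : ∀ f, f ∈ NW.edg T.1 → f ≠ s(v, w) → f ∈ X := fun f hf hfe =>
    hsub (mem_sdiff.2 ⟨hf, by rwa [mem_singleton]⟩)
  have hvT : v ∈ T.1 := by rw [hTe]; simp
  have hwT : w ∈ T.1 := by rw [hTe]; simp
  have huT : u ∈ T.1 := by rw [hTe]; simp
  have hg : ∀ a b : V, s(a, b) ∈ X → sd a ≠ sd b → gX De sd 0 s(a, b) = -1 := by
    intro a b hab hn
    have hnD : s(a, b) ∉ De := (mem_sdiff.1 (h.H_sub (hXH hab))).2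
    unfold gX
    rw [gamX_eq sd hnD, gam_mk, if_neg hn]
  by_cases hc : sd v = sd u
  · -- the cross edge is `w u`
    have hf : s(w, u) ∈ NW.edg T.1 := NW.mk_mem_edg.2 ⟨hwT, huT, hu2.symm⟩
    have hfe : s(w, u) ≠ s(v, w) := by
      rw [Ne, Sym2.eq_iff]
      rintro (⟨h1, h2⟩ | ⟨h1, h2⟩)
      · exact hu2 h2
      · exact hu1 h2
    have hfX := hXe _ hf hfe
    exact ⟨s(w, u), mem_filter.2 ⟨hfX, hg w u hfX (by rw [← hc]; exact hne.symm)⟩, hfe, hf⟩
  · have hf : s(v, u) ∈ NW.edg T.1 := NW.mk_mem_edg.2 ⟨hvT, huT, hu1.symm⟩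
    have hfe : s(v, u) ≠ s(v, w) := by
      rw [Ne, Sym2.eq_iff]
      rintro (⟨h1, h2⟩ | ⟨h1, h2⟩)
      · exact hu2 h2
      · exact hu1 h2
    have hfX := hXe _ hf hfe
    exact ⟨s(v, u), mem_filter.2 ⟨hfX, hg v u hfX hc⟩, hfe, hf⟩

end X

/-- world G -/
def GResult : Prop :=
  ∀ (J : ℕ) (θ c : ℝ), 3 ≤ J → 0 < θ → 0 < c → ∃ ε : ℝ, 0 < ε ∧ ∃ n₀ : ℕ,
    ∀ (V : Type) [Fintype V] [DecidableEq V] (E De H : Finset (Sym2 V)) (sd : V → Bool)
      (At : Finset V), n₀ ≤ Fintype.card V → WG E De H sd At ε θ c → Concl J E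

theorem gresult (hA : AsmStatement) (hF : FXStatement) (hB : ABGStatement) (hH : HBGStatement)
    (hVal : ValStatement) : GResult := by
  intro J θ c hJ hθ hc
  obtain ⟨m, hm⟩ := hA 1
  obtain ⟨ε₀, K, κ, hε₀, hK, hκ, nF, hF⟩ := hF θ c hθ hc
  obtain ⟨ε₁, η₁, hε₁, hη₁, hB⟩ := hB θ hθ
  obtain ⟨C, nB, hB⟩ := hB m
  obtain ⟨ε₂, η₂, cv, hε₂, hη₂, hcv, nH, hH, hP⟩ := hH θ c hθ hc
  obtain ⟨B, nP, hB0, hP⟩ := hP (2 * (J + 3)) (by omega) ⟨J + 3, by ring⟩
  set η : ℝ := min η₁ η₂ with hη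
  have hη0 : 0 < η := lt_min hη₁ hη₂
  obtain ⟨n₀, hm⟩ := hm J C η K κ cv B hJ hη0 hK hκ hcv hB0 (2 * (J + 3)) (by omega)
    ⟨J + 3, by ring⟩ (by omega)
  set ε : ℝ := min (min ε₀ ε₁) (min ε₂ (1 / 8)) with hε
  have hεp : 0 < ε := lt_min (lt_min hε₀ hε₁) (lt_min hε₂ (by norm_num))
  have hε0 : ε ≤ ε₀ := (min_le_left _ _).trans (min_le_left _ _)
  have hε1 : ε ≤ ε₁ := (min_le_left _ _).trans (min_le_right _ _)
  have hε2 : ε ≤ ε₂ := (min_le_right _ _).trans (min_le_left _ _)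
  have hε3 : ε ≤ 1 / 8 := (min_le_right _ _).trans (min_le_right _ _)
  refine ⟨ε, hεp, max (max 1 n₀) (max nF (max nB (max nH nP))),
    fun V _ _ E De H sd At hn hR => ?_⟩
  have h0 : 1 ≤ Fintype.card V := by omega
  have h1 : n₀ ≤ Fintype.card V := by omega
  have h2 : nF ≤ Fintype.card V := by omega
  have h3 : nB ≤ Fintype.card V := by omega
  have h4 : nH ≤ Fintype.card V := by omega
  have h5 : nP ≤ Fintype.card V := by omega
  obtain ⟨hpiece, hvirt, htok⟩ := hH V E De H sd At h4 (hR.mono hε2)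
  obtain ⟨v1, v2, v3, v4, v5, v6, v7⟩ := hVal V
  have hHD : H ⊆ E \ De := hR.x.H_sub
  have hHE : H ⊆ E := hHD.trans sdiff_subset
  have hdisj : ∀ D, D ⊆ H → Disjoint D De := fun D hD =>
    disjoint_of_subset_left (hD.trans hHD) disjoint_sdiff_self_left
  have hsum : ∀ D, D ⊆ H → ∑ e ∈ D, gamX De sd e = ∑ e ∈ D, gam sd e := fun D hD =>
    sum_gamX sd (hdisj D hD)
  have hgood : ∀ D, D ⊆ H → Good0 (gX De sd) (fun _ => 0) D → Good0 (g1 sd) (fun _ => 0) D := by
    intro D hD hg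
    refine ⟨hg.1, fun j => ?_, hg.2.2⟩
    have := hg.2.1 j
    unfold gX at this
    unfold g1
    rwa [hsum D hD] at this
  refine hm V (alX De sd) (alG sd) E H ∅ (gX De sd) (fun _ => 0) h1 ?_
  refine
    { div := hR.x.div
      deg := hR.x.deg3
      H_sub := hHE
      E0_sub := empty_subset _
      tri := fun T hT _ _ => v7 De sd T hR.x.De_int hT
      tot := fun _ => hR.x.totX
      host :=
        { nl := hR.rob.nl
          piece := hpiece.mono (min_le_right _ _)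
          token := fun j σ hσ => (htok j σ hσ).mono (min_le_right _ _) (fun e he _ =>
            gamX_eq sd (mem_sdiff.1 (hHD he)).2)
          abs := (hB V H sd At h3 (hR.rob.mono hε1)).mono (min_le_left _ _)
            (fun T h _ => h) hgood
          val := fun D hD hDiv => ⟨fun _ => by
            show (6 : ℤ) ∣ ∑ e ∈ D, gamX De sd e
            rw [hsum D hD]
            exact v1 sd D hDiv, Or.inl (by simp)⟩
          bd := fun _ e => abs_gamX_le De sd e
          tri := fun T hT hTH => ⟨fun _ => by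
            show ∑ e ∈ NW.edg T.1, gamX De sd e = 0
            rw [hsum _ hTH]
            exact v2 sd T hT, by simp⟩ }
      tors := Tors.none (fun _ => rfl)
      place := PlOK.mono (by omega) ⟨J + 3, by ring⟩ hB0.le
        (hP V E De H sd At h5 (hR.mono hε2)) (min_le_right _ _) (fun T h hTH => Or.inl ⟨h, ?_⟩)
      virt := hvirt
      adj := fun X hXH hX => hR.x.adj hε3 h0 hXH hX
      frac := ?_ }
  · rw [union_empty] at hTH
    exact hdisj _ hTH
  · intro R hR1 hR2 hR3 Bd hBd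
    rw [union_empty] at hR1
    refine hF V E De H R sd At Bd h2 (hR.x.mono hε0) (hR1.trans hHD) hR2 ?_ hBd
    have := hR3 0
    unfold gX at this
    rwa [hsum R hR1] at this

end F3
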