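import Pool.Agent.F3.Targets
import Pool.Agent.F2.Tem.All

/-!
# Project F3: monotonicity lemmas for the world instances
-/

set_option autoImplicit false
set_option linter.unusedSectionVars false

namespace F3

open Finset NW F1

section Mono

variable {V : Type} [Fintype V] [DecidableEq V]

theorem nnV_nonneg (V : Type) [Fintype V] : (0 : ℝ) ≤ nn V := by unfold nn; positivity

theorem Sm.mono {η η' : ℝ} {Z : Finset (Sym2 V)} (h : Sm η Z) (hη : η ≤ η') : Sm η' Z :=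
  fun v => (h v).trans (mul_le_mul_of_nonneg_right hη (nnV_nonneg V))

theorem SmF.mono {η η' : ℝ} {F : Finset V} (h : SmF η F) (hη : η ≤ η') : SmF η' F := by
  unfold SmF at h ⊢
  exact h.trans (mul_le_mul_of_nonneg_right hη (nnV_nonneg V))

theorem SmT.mono {η η' : ℝ} {B : Finset (Tri V)} (h : SmT η B) (hη : η ≤ η') : SmT η' B :=
  fun v => (h v).trans (mul_le_mul_of_nonneg_right hη (nnV_nonneg V))

theorem Frac.mono {K K' : ℝ} {al : Tri V → Prop} {E : Finset (Sym2 V)} {B : Finset (Tri V)}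
    (h : Frac K al E B) (hK : K ≤ K') : Frac K' al E B := by
  obtain ⟨w, h0, h1, h2, h3⟩ := h
  exact ⟨w, h0, fun T => (h1 T).trans (div_le_div_of_nonneg_right hK (nnV_nonneg V)), h2, h3⟩

/-- the class of allowed triangles only matters for triangles of `E` -/
theorem DecA.mono {al al' : Tri V → Prop} {E : Finset (Sym2 V)} (h : DecA al E)
    (ha : ∀ T : Tri V, al T → NW.edg T.1 ⊆ E → al' T) : DecA al' E := by
  obtain ⟨𝒯, h1, h2, h3⟩ := h
  refine ⟨𝒯, fun T hT => ha T (h1 T hT) ?_, h2, h3⟩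
  rw [← h3]
  exact subset_biUnion_of_mem (fun T : Tri V => NW.edg T.1) hT

theorem AbsA.mono {al al' : Tri V → Prop} {H : Finset (Sym2 V)}
    {Φ Φ' : Finset (Sym2 V) → Prop} {U : Finset V} {A : Finset (Sym2 V)} (h : AbsA al H Φ U A)
    (hA : A ⊆ H) (ha : ∀ T : Tri V, al T → NW.edg T.1 ⊆ H → al' T)
    (hΦ : ∀ D, D ⊆ H → Φ' D → Φ D) : AbsA al' H Φ' U A := by
  refine ⟨h.dec.mono fun T h1 h2 => ha T h1 (h2.trans hA), h.new, fun D hD hDU hΦD => ?_⟩
  exact (h.abs D hD hDU (hΦ D hD hΦD)).mono fun T h1 h2 =>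
    ha T h1 (h2.trans (union_subset hA hD))

theorem AbsOK.mono {al al' : Tri V → Prop} {H : Finset (Sym2 V)}
    {Φ Φ' : Finset (Sym2 V) → Prop} {η η' : ℝ} {m C : ℕ} (h : AbsOK al H Φ η' m C)
    (hη : η ≤ η') (ha : ∀ T : Tri V, al T → NW.edg T.1 ⊆ H → al' T)
    (hΦ : ∀ D, D ⊆ H → Φ' D → Φ D) : AbsOK al' H Φ' η m C := by
  intro Z F U hZ hF hU
  obtain ⟨A, h1, h2, h3, h4⟩ := h Z F U (hZ.mono hη) (hF.mono hη) hU
  exact ⟨A, h1, h2, h3, h4.mono (h1.trans sdiff_subset) ha hΦ⟩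

theorem PieceOK.mono {H : Finset (Sym2 V)} {η η' : ℝ} (h : PieceOK H η') (hη : η ≤ η') :
    PieceOK H η := fun Z F g hZ hF hg => h Z F g (hZ.mono hη) (hF.mono hη) hg

theorem TokenOK.mono {r : ℕ} {H : Finset (Sym2 V)} {γ γ' : Fin r → Sym2 V → ℤ}
    {τ : Sym2 V → ZMod 4} {η η' : ℝ} {a : Fin r → ℤ} {b : ZMod 4} (h : TokenOK H γ τ η' a b)
    (hη : η ≤ η') (hγ : ∀ e ∈ H, ∀ j, γ' j e = γ j e) : TokenOK H γ' τ η a b := by
  intro Z F hZ hF
  obtain ⟨W, h1, h2, h3, h4, h5, h6⟩ := h Z F (hZ.mono hη) (hF.mono hη)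
  refine ⟨W, h1, h2, h3, h4, fun j => ?_, h6⟩
  rw [← h5 j]
  exact sum_congr rfl fun e he => hγ e (mem_sdiff.1 (h1 he)).1 j

theorem PlOK.mono {ar al al' : Tri V → Prop} {H E0 : Finset (Sym2 V)} {η η' : ℝ} {c : ℕ} {B : ℝ}
    (hc : 6 ≤ c) (he : Even c) (hB : 0 ≤ B)
    (h : PlOK ar al H E0 η' c B) (hη : η ≤ η')
    (ha : ∀ T : Tri V, al T → NW.edg T.1 ⊆ H ∪ E0 → al' T) : PlOK ar al' H E0 η c B := by
  intro Z hZ r hr hrE
  refine (h Z (hZ.mono hη) r hr hrE).trans (mul_le_mul_of_nonneg_left ?_ hB)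
  have : PlA c al (H \ Z) r ⊆ PlA c al' (H \ Z) r := by
    classical
    intro x hx
    unfold PlA at hx ⊢
    rw [mem_filter] at hx ⊢
    refine ⟨hx.1, fun T hT => ha T (hx.2 T hT) ?_⟩
    have hPl := hx.1
    unfold F2.Pl at hPl
    rw [mem_filter] at hPl
    obtain ⟨-, hinj, hrt, hbE⟩ := hPl
    have hf := F2.template c hc he V x hinj
    have hb : F2.bE c x ⊆ H ∪ E0 := (hbE.trans sdiff_subset).trans subset_union_left
    rcases mem_union.1 hT with hT | hT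
    · have h1 : NW.edg T.1 ⊆ NW.edg (F2.rt c x) ∪ F2.bE c x := by
        rw [← hf.edgON]
        exact subset_biUnion_of_mem (fun T : Tri V => NW.edg T.1) hT
      rw [hrt] at h1
      exact h1.trans (union_subset hrE hb)
    · exact (subset_biUnion_of_mem (fun T : Tri V => NW.edg T.1) hT).trans hb
  exact_mod_cast card_le_card this

theorem RobG.mono {H : Finset (Sym2 V)} {sd : V → Bool} {At : Finset V} {ε ε' θ : ℝ}
    (h : RobG H sd At ε θ) (hε : ε ≤ ε') : RobG H sd At ε' θ := by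
  have hn := nnV_nonneg V
  have h1 : ε * nn V ≤ ε' * nn V := mul_le_mul_of_nonneg_right hε hn
  exact ⟨h.nl, fun b => (h.side b).trans (by nlinarith), h.At_card.trans h1, h.noAt,
    fun v hv => (h.miss v hv).trans h1, fun v => le_trans (by nlinarith) (h.cross v),
    fun v => le_trans (by nlinarith) (h.int v), h.gen1, h.gen2⟩

theorem RobR.mono {H : Finset (Sym2 V)} {fl : Bool → Bool} {sd pt : V → Bool} {At : Finset V}
    {ε ε' : ℝ} (h : RobR H fl sd pt At ε) (hε : ε ≤ ε') : RobR H fl sd pt At ε' := by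
  have hn := nnV_nonneg V
  have h1 : ε * nn V ≤ ε' * nn V := mul_le_mul_of_nonneg_right hε hn
  exact ⟨h.nl, fun b c => (h.part b c).trans (by nlinarith), h.At_card.trans h1, h.noAt, h.core,
    fun v hv => (h.miss v hv).trans h1, fun v b c hb => le_trans (by nlinarith) (h.deg v b c hb)⟩

theorem WX.mono {E De H : Finset (Sym2 V)} {sd : V → Bool} {At : Finset V} {ε ε' θ c : ℝ}
    (h : WX E De H sd At ε θ c) (hε : ε ≤ ε') : WX E De H sd At ε' θ c := by
  have hn := nnV_nonneg V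
  have h1 : ε * nn V ≤ ε' * nn V := mul_le_mul_of_nonneg_right hε hn
  exact ⟨h.div, h.deg3, h.loc, h.De_sub, h.De_int, h.De_typ, h.tot, h.H_sub,
    fun b => (h.side b).trans h1, h.At_card.trans h1, fun v hv => (h.miss v hv).trans h1,
    fun v hv => (h.intT v hv).trans h1, fun v hv => (h.De_T v hv).trans h1, h.De_A,
    fun v => le_trans (by nlinarith) (h.int v), fun v => le_trans (by nlinarith) (h.cross v),
    h.slack, h.rich, h.richA, h.odd⟩

theorem WG.mono {E De H : Finset (Sym2 V)} {sd : V → Bool} {At : Finset V} {ε ε' θ c : ℝ}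
    (h : WG E De H sd At ε θ c) (hε : ε ≤ ε') : WG E De H sd At ε' θ c :=
  ⟨h.x.mono hε, h.H_eq, h.rob.mono hε⟩

theorem WR.mono {E De H : Finset (Sym2 V)} {fl : Bool → Bool} {sd pt : V → Bool} {At : Finset V}
    {e₀ : Sym2 V} {ε ε' θ c : ℝ} (h : WR E De H fl sd pt At e₀ ε θ c) (hε : ε ≤ ε') :
    WR E De H fl sd pt At e₀ ε' θ c :=
  ⟨h.x.mono hε, h.flD, h.H_eq, h.rob.mono hε, h.maj, h.e₀_mem, h.e₀_typ, h.e₀_exc, h.e₀_apex⟩

theorem WS.mono {E H : Finset (Sym2 V)} {sd : V → Bool} {At : Finset V} {ε ε' θ : ℝ}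
    (h : WS E H sd At ε θ) (hε : ε ≤ ε') : WS E H sd At ε' θ :=
  ⟨h.H_eq, h.rob.mono hε, h.tri⟩

theorem WT.mono {E H : Finset (Sym2 V)} {sd pt : V → Bool} {ty : Sym2 V → Fin 3} {At : Finset V}
    {ε ε' c : ℝ} (h : WT E H sd pt ty At ε c) (hε : ε ≤ ε') : WT E H sd pt ty At ε' c := by
  have hn := nnV_nonneg V
  have h1 : ε * nn V ≤ ε' * nn V := mul_le_mul_of_nonneg_right hε hn
  exact ⟨h.div, h.deg3, h.max4, h.tot, fun a b => (h.part a b).trans h1, h.At_card.trans h1,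
    fun v hv => (h.miss v hv).trans h1, fun v hv => (h.exc v hv).trans h1,
    fun v t => le_trans (by nlinarith) (h.deg v t), h.H_eq, h.rob.mono hε, h.slack, h.feas,
    h.feasC⟩

end Mono

end F3
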