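import Pool.Agent.F3.Inst.NS

/-!
# Project F3: world T
-/

set_option autoImplicit false
set_option linter.unusedSectionVars false

namespace F3

open Finset NW F1

section X

variable {V : Type} [Fintype V] [DecidableEq V]

/-- the weights of the first two types -/
def gT (sd pt : V → Bool) (ty : Sym2 V → Fin 3) : Fin 2 → Sym2 V → ℤ :=
  fun j => gamT sd pt ty (if j = 0 then 0 else 1)

theorem cut_zero (sd pt : V → Bool) : cut sd pt 0 = sd := by
  funext v
  simp [cut]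

theorem cut_one (sd pt : V → Bool) : cut sd pt 1 = pt := by
  funext v
  simp [cut]

theorem cut_two (sd pt : V → Bool) (v : V) : cut sd pt 2 v = xor (sd v) (pt v) := by
  simp [cut]

theorem gamT_eq {sd pt : V → Bool} (ty : Sym2 V → Fin 3) (t : Fin 3) {e : Sym2 V}
    (he : ¬ Exc sd pt e) : gamT sd pt ty t e = gam (cut sd pt t) e := by
  unfold gamT
  rw [if_neg (fun h => he h.1)]

theorem gT_eq {sd pt : V → Bool} (ty : Sym2 V → Fin 3) (j : Fin 2) {e : Sym2 V}
    (he : ¬ Exc sd pt e) : gT sd pt ty j e = g2 sd pt j e := by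
  unfold gT g2
  rw [gamT_eq ty _ he]
  split_ifs with h
  · rw [cut_zero]
  · rw [cut_one]

theorem abs_gT_le (sd pt : V → Bool) (ty : Sym2 V → Fin 3) (j : Fin 2) (e : Sym2 V) :
    |gT sd pt ty j e| ≤ 4 := by
  unfold gT gamT gam
  split_ifs <;> norm_num

/-- the sum of the three weights of a core pair is zero -/
theorem gam_sum {sd pt : V → Bool} {e : Sym2 V} (he : ¬ Exc sd pt e) :
    gam (cut sd pt 2) e = -gam sd e - gam pt e := by
  induction e using Sym2.ind with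
  | _ u v =>
    rw [Exc_mk] at he
    rw [gam_mk, gam_mk, gam_mk, cut_two, cut_two]
    revert he
    cases sd u <;> cases sd v <;> cases pt u <;> cases pt v <;> simp

theorem gam_dvd {sd pt : V → Bool} {e : Sym2 V} (he : ¬ Exc sd pt e) :
    (3 : ℤ) ∣ gam sd e - gam pt e := by
  induction e using Sym2.ind with
  | _ u v =>
    rw [Exc_mk] at he
    rw [gam_mk, gam_mk]
    revert he
    cases sd u <;> cases sd v <;> cases pt u <;> cases pt v <;> simp

theorem WT.nexc {E H : Finset (Sym2 V)} {sd pt : V → Bool} {ty : Sym2 V → Fin 3} {At : Finset V}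
    {ε c : ℝ} (h : WT E H sd pt ty At ε c) {e : Sym2 V} (he : e ∈ H) : ¬ Exc sd pt e := by
  rw [h.H_eq, mem_filter] at he
  exact he.2.2

/-- enough edges of all types in the reserve -/
theorem WT.adj {E H : Finset (Sym2 V)} {sd pt : V → Bool} {ty : Sym2 V → Fin 3} {At : Finset V}
    {ε c : ℝ} (h : WT E H sd pt ty At ε c) (hε : ε < 1 / 8) (hV : 1 ≤ Fintype.card V)
    {X : Finset (Sym2 V)} (hXH : X ⊆ H)
    (hX : ∀ e ∈ E, 12 ≤ (vtr (alT sd pt ty) X e).card) : AdjOK H ∅ X (gT sd pt ty) := by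
  have hpos : (0 : ℝ) < nn V := by
    unfold nn
    exact_mod_cast hV
  obtain ⟨v⟩ : Nonempty V := Fintype.card_pos_iff.1 (by omega)
  have h1 : (0 : ℝ) < (NT sd pt E 1 v : ℝ) := lt_of_lt_of_le (by nlinarith) (h.deg v 1)
  have h2 : 0 < ((nbr E v).filter (fun w => CT sd pt 1 v w)).card := by
    unfold NT at h1
    exact_mod_cast h1
  obtain ⟨w, hw⟩ := card_pos.1 h2
  rw [mem_filter, mem_nbr] at hw
  obtain ⟨hvw, hw⟩ := hw
  unfold CT at hw
  rw [cut_one] at hw
  obtain ⟨hpt, hsd⟩ := hw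
  have hsd' : sd v ≠ sd w := fun hh => hsd ⟨hh, hpt⟩
  have key : ∀ T : Tri V, alT sd pt ty T → s(v, w) ∈ NW.edg T.1 → NW.edg T.1 \ {s(v, w)} ⊆ X →
      ∃ f g : Sym2 V, f ∈ X ∧ g ∈ X ∧ f ≠ s(v, w) ∧ g ≠ s(v, w) ∧ f ∈ NW.edg T.1 ∧
        g ∈ NW.edg T.1 ∧ (gam sd f = 2 ∧ gam pt f = -1) ∧ (gam sd g = -1 ∧ gam pt g = -1) := by
    intro T hT he hsub
    obtain ⟨x, hx1, hx2, hvwne, hTe⟩ := third he
    have hvT : v ∈ T.1 := by rw [hTe]; simp
    have hwT : w ∈ T.1 := by rw [hTe]; simp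
    have hxT : x ∈ T.1 := by rw [hTe]; simp
    have hXe : ∀ f, f ∈ NW.edg T.1 → f ≠ s(v, w) → f ∈ X := fun f hf hfe =>
      hsub (mem_sdiff.2 ⟨hf, by rwa [mem_singleton]⟩)
    have hvx : s(v, x) ∈ NW.edg T.1 := NW.mk_mem_edg.2 ⟨hvT, hxT, hx1.symm⟩
    have hwx : s(w, x) ∈ NW.edg T.1 := NW.mk_mem_edg.2 ⟨hwT, hxT, hx2.symm⟩
    have hvxe : s(v, x) ≠ s(v, w) := by
      rw [Ne, Sym2.eq_iff]
      rintro (⟨h1, h2⟩ | ⟨h1, h2⟩)
      · exact hx2 h2
      · exact hx1 h2
    have hwxe : s(w, x) ≠ s(v, w) := by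
      rw [Ne, Sym2.eq_iff]
      rintro (⟨h1, h2⟩ | ⟨h1, h2⟩)
      · exact hx2 h2
      · exact hx1 h2
    have hvxX := hXe _ hvx hvxe
    have hwxX := hXe _ hwx hwxe
    have e1 := h.nexc (hXH hvxX)
    have e2 := h.nexc (hXH hwxX)
    rw [Exc_mk] at e1 e2
    by_cases hs : sd v = sd x
    · refine ⟨s(v, x), s(w, x), hvxX, hwxX, hvxe, hwxe, hvx, hwx, ?_, ?_⟩
      · have hp : pt v ≠ pt x := fun hh => e1 ⟨hs, hh⟩
        rw [gam_mk, gam_mk, if_pos hs, if_neg hp]
        exact ⟨rfl, rfl⟩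
      · have hp : pt w ≠ pt x := by
          rw [← hpt]
          exact fun hh => e1 ⟨hs, hh⟩
        have hs' : sd w ≠ sd x := by
          rw [← hs]
          exact hsd'.symm
        rw [gam_mk, gam_mk, if_neg hs', if_neg hp]
        exact ⟨rfl, rfl⟩
    · have hs2 : sd w = sd x := by
        revert hsd' hs
        cases sd v <;> cases sd w <;> cases sd x <;> simp
      have hp : pt w ≠ pt x := fun hh => e2 ⟨hs2, hh⟩
      refine ⟨s(w, x), s(v, x), hwxX, hvxX, hwxe, hvxe, hwx, hvx, ?_, ?_⟩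
      · rw [gam_mk, gam_mk, if_pos hs2, if_neg hp]
        exact ⟨rfl, rfl⟩
      · have hp' : pt v ≠ pt x := by
          rw [hpt]
          exact hp
        rw [gam_mk, gam_mk, if_neg hs, if_neg hp']
        exact ⟨rfl, rfl⟩
  have hval : ∀ f ∈ X, gT sd pt ty 0 f = gam sd f ∧ gT sd pt ty 1 f = gam pt f := by
    intro f hf
    have := h.nexc (hXH hf)
    exact ⟨by rw [gT_eq ty 0 this]; rfl, by rw [gT_eq ty 1 this]; rfl⟩
  refine adj2 ?_ ?_ ?_
  · intro e he
    rw [union_empty] at he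
    have hne := h.nexc he
    rw [gT_eq ty 0 hne, gT_eq ty 1 hne]
    exact gam_dvd hne
  · refine le_trans (by norm_num) ((hX _ hvw).trans (card_le_of_vtr fun T h1 h2 h3 => ?_))
    obtain ⟨f, g, hf, -, hfe, -, hfT, -, hf2, -⟩ := key T h1 h2 h3
    refine ⟨f, mem_filter.2 ⟨hf, ?_⟩, hfe, hfT⟩
    rw [(hval f hf).1, (hval f hf).2]
    exact hf2
  · refine le_trans (by norm_num) ((hX _ hvw).trans (card_le_of_vtr fun T h1 h2 h3 => ?_))
    obtain ⟨f, g, -, hg, -, hge, -, hgT, -, hg2⟩ := key T h1 h2 h3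
    refine ⟨g, mem_filter.2 ⟨hg, ?_⟩, hge, hgT⟩
    rw [(hval g hg).1, (hval g hg).2]
    exact hg2

end X

/-- world T -/
def TResult : Prop :=
  ∀ (J : ℕ) (c : ℝ), 3 ≤ J → 0 < c → ∃ ε : ℝ, 0 < ε ∧ ∃ n₀ : ℕ,
    ∀ (V : Type) [Fintype V] [DecidableEq V] (E H : Finset (Sym2 V)) (sd pt : V → Bool)
      (ty : Sym2 V → Fin 3) (At : Finset V), n₀ ≤ Fintype.card V →
      WT E H sd pt ty At ε c → Concl J E

theorem tresult (hA : AsmStatement) (hF : FTStatement) (hB : ABTStatement) (hH : HBTStatement)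
    (hVal : ValStatement) : TResult := by
  intro J c hJ hc
  obtain ⟨m, hm⟩ := hA 2
  obtain ⟨ε₀, K, κ, hε₀, hK, hκ, nF, hF⟩ := hF c hc
  obtain ⟨ε₁, η₁, hε₁, hη₁, hB⟩ := hB
  obtain ⟨C, nB, hB⟩ := hB m
  obtain ⟨ε₂, η₂, cv, hε₂, hη₂, hcv, nH, hH, hP⟩ := hH c hc
  obtain ⟨B, nP, hB0, hP⟩ := hP (2 * (J + 3)) (by omega) ⟨J + 3, by ring⟩
  set η : ℝ := min η₁ η₂ with hη
  have hη0 : 0 < η := lt_min hη₁ hη₂
  obtain ⟨n₀, hm⟩ := hm J C η K κ cv B hJ hη0 hK hκ hcv hB0 (2 * (J + 3)) (by omega)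
    ⟨J + 3, by ring⟩ (by omega)
  set ε : ℝ := min (min ε₀ ε₁) (min ε₂ (1 / 9)) with hε
  have hεp : 0 < ε := lt_min (lt_min hε₀ hε₁) (lt_min hε₂ (by norm_num))
  have hε0 : ε ≤ ε₀ := (min_le_left _ _).trans (min_le_left _ _)
  have hε1 : ε ≤ ε₁ := (min_le_left _ _).trans (min_le_right _ _)
  have hε2 : ε ≤ ε₂ := (min_le_right _ _).trans (min_le_left _ _)
  have hε3 : ε < 1 / 8 := ((min_le_right _ _).trans (min_le_right _ _)).trans_lt (by norm_num)
  refine ⟨ε, hεp, max (max 1 n₀) (max nF (max nB (max nH nP))),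
    fun V _ _ E H sd pt ty At hn hR => ?_⟩
  have h0 : 1 ≤ Fintype.card V := by omega
  have h1 : n₀ ≤ Fintype.card V := by omega
  have h2 : nF ≤ Fintype.card V := by omega
  have h3 : nB ≤ Fintype.card V := by omega
  have h4 : nH ≤ Fintype.card V := by omega
  have h5 : nP ≤ Fintype.card V := by omega
  obtain ⟨hpiece, hvirt, htok⟩ := hH V E H sd pt ty At h4 (hR.mono hε2)
  obtain ⟨v1, v2, v3, v4, v5, v6, v7⟩ := hVal V
  have habs := hB V H sd pt At h3 (hR.rob.mono hε1)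
  have hHE : H ⊆ E := by
    rw [hR.H_eq]
    exact filter_subset _ _
  have hsum : ∀ D, D ⊆ H → ∀ j, ∑ e ∈ D, gT sd pt ty j e = ∑ e ∈ D, g2 sd pt j e := fun D hD j =>
    sum_congr rfl fun e he => gT_eq ty j (hR.nexc (hD he))
  have hgood : ∀ D, D ⊆ H → Good0 (gT sd pt ty) (fun _ => 0) D →
      Good0 (g2 sd pt) (fun _ => 0) D := by
    intro D hD hg
    refine ⟨hg.1, fun j => ?_, hg.2.2⟩
    rw [← hsum D hD]
    exact hg.2.1 j
  have htri : ∀ T : Tri V, alR (fun _ => false) sd pt T → alT sd pt ty T := by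
    intro T hT
    left
    intro u hu v hv huv
    have := hT.2 u hu v hv huv
    unfold Co CoP at this
    rintro ⟨h1, h2⟩
    rcases this with h | h
    · exact h h1
    · rw [if_neg (by simp)] at h
      exact h h2
  refine hm V (alT sd pt ty) (alR (fun _ => false) sd pt) E H ∅ (gT sd pt ty) (fun _ => 0) h1 ?_
  refine
    { div := hR.div
      deg := hR.deg3
      H_sub := hHE
      E0_sub := empty_subset _
      tri := fun T hT _ j => v6 sd pt ty T hT _
      tot := fun j => hR.tot _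
      host :=
        { nl := hR.rob.nl
          piece := hpiece.mono (min_le_right _ _)
          token := fun j σ hσ => (htok j σ hσ).mono (min_le_right _ _) (fun e he j =>
            gT_eq ty j (hR.nexc he))
          abs := habs.mono (min_le_left _ _) (fun T h _ => h) hgood
          val := fun D hD hDiv => ⟨fun j => by
            rw [hsum D hD]
            unfold g2
            split_ifs
            · exact v1 sd D hDiv
            · exact v1 pt D hDiv, Or.inl (by simp)⟩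
          bd := fun j e => abs_gT_le sd pt ty j e
          tri := fun T hT hTH => ⟨fun j => by
            rw [hsum _ hTH]
            unfold g2
            split_ifs
            · exact (v5 sd pt T hT).1
            · exact (v5 sd pt T hT).2, by simp⟩ }
      tors := Tors.none (fun _ => rfl)
      place := PlOK.mono (by omega) ⟨J + 3, by ring⟩ hB0.le
        (hP V E H sd pt ty At h5 (hR.mono hε2)) (min_le_right _ _) (fun T h _ => htri T h)
      virt := hvirt
      adj := fun X hXH hX => hR.adj hε3 h0 hXH hX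
      frac := ?_ }
  intro R hR1 hR2 hR3 Bd hBd
  rw [union_empty] at hR1
  have hne : ∀ e ∈ R, ¬ Exc sd pt e := fun e he => hR.nexc (hR1 he)
  have s0 : ∑ e ∈ R, gam sd e = 0 := by
    have := hR3 0
    rw [hsum R hR1] at this
    exact this
  have s1 : ∑ e ∈ R, gam pt e = 0 := by
    have := hR3 1
    rw [hsum R hR1] at this
    exact this
  have s2 : ∑ e ∈ R, gam (cut sd pt 2) e = 0 := by
    rw [sum_congr rfl (fun e he => gam_sum (hne e he)), sum_sub_distrib, sum_neg_distrib, s0, s1]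
    norm_num
  refine hF V E H R sd pt ty At Bd h2 (hR.mono hε0) (hR1.trans hHE) hne hR2 ?_ hBd
  intro t
  fin_cases t
  · show ∑ e ∈ R, gam (cut sd pt 0) e = 0
    rw [cut_zero]
    exact s0
  · show ∑ e ∈ R, gam (cut sd pt 1) e = 0
    rw [cut_one]
    exact s1
  · exact s2

end F3
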