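import Pool.Agent.F3.Inst.R
import Pool.Agent.F3.Inst.T

/-!
# Project F3: the final theorem from the blocks
-/

set_option autoImplicit false
set_option linter.unusedSectionVars false

namespace F3

open Finset NW F1

theorem main_of (hC : CaseStatement) (hN : NResult) (hS : SResult) (hG : GResult) (hR : RResult)
    (hT : TResult) : MainStatement := by
  intro g
  have hJ : 3 ≤ max 3 g := le_max_left _ _
  have hg : g ≤ max 3 g := le_max_right _ _
  obtain ⟨c, θr, hc, hθr, hC⟩ := hC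
  obtain ⟨εR, hεR, nR, hR⟩ := hR (max 3 g) θr c hJ hθr hc
  obtain ⟨εT, hεT, nT, hT⟩ := hT (max 3 g) c hJ hc
  obtain ⟨θG, cG, hθG, hcG, hC⟩ := hC (min εR εT) (lt_min hεR hεT)
  obtain ⟨εG, hεG, nG, hG⟩ := hG (max 3 g) θG cG hJ hθG hcG
  obtain ⟨ρ, hρ, θS, hθS, hC⟩ := hC εG hεG
  obtain ⟨εS, hεS, nS, hS⟩ := hS (max 3 g) ρ θS hJ hρ hθS
  obtain ⟨θN, hθN, n₀, hC⟩ := hC εS hεS
  obtain ⟨nN, hN⟩ := hN (max 3 g) ρ θN hJ hρ hθN
  refine ⟨max (max n₀ nN) (max nS (max nG (max nR nT))), fun V _ _ E hE hn hd => ?_⟩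
  have h0 : n₀ ≤ Fintype.card V := by omega
  have h1 : nN ≤ Fintype.card V := by omega
  have h2 : nS ≤ Fintype.card V := by omega
  have h3 : nG ≤ Fintype.card V := by omega
  have h4 : nR ≤ Fintype.card V := by omega
  have h5 : nT ≤ Fintype.card V := by omega
  have key : Concl (max 3 g) E := by
    rcases hC V E hE h0 hd with ⟨hEX, h | ⟨H, sd, At, h⟩⟩ | ⟨De, H, sd, At, h⟩ |
      ⟨De, H, fl, sd, pt, At, e₀, h⟩ | ⟨H, sd, pt, ty, At, h⟩
    · exact hN V E hE h1 hd hEX h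
    · exact hS V E H sd At hE h2 hd hEX h
    · exact hG V E De H sd At h3 h
    · exact hR V E De H fl sd pt At e₀ h4 (h.mono (min_le_left _ _))
    · exact hT V E H sd pt ty At h5 (h.mono (min_le_right _ _))
  obtain ⟨𝒯, h6, h7, h8⟩ := key
  exact ⟨𝒯, h6, h7, fun U hU hUg => h8 U hU (by omega)⟩

/-- the form for simple graphs -/
def SimpleStatement : Prop :=
  ∀ g : ℕ, ∃ N : ℕ, ∀ n : ℕ, N ≤ n →
    ∀ (G : SimpleGraph (Fin n)) [DecidableRel G.Adj],
      (∀ v, Even (G.degree v)) →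
      3 ∣ G.edgeFinset.card →
      (∀ v, 3 * n ≤ 4 * G.degree v) →
      ∃ T : Finset (Finset (Fin n)),
        (∀ t ∈ T, G.IsNClique 3 t) ∧
        (∀ u v, G.Adj u v → ∃! t, t ∈ T ∧ u ∈ t ∧ v ∈ t) ∧
        (∀ S : Finset (Fin n), 4 ≤ S.card → S.card < g →
          (T.filter (fun t => t ⊆ S)).card + 2 < S.card)

theorem simple (h : MainStatement) : SimpleStatement := by
  intro g
  obtain ⟨n₀, h1⟩ := h g
  refine ⟨n₀, fun n hn G _ heven hdvd hdeg => ?_⟩
  have hdegG : ∀ v, NW.deg G.edgeFinset v = G.degree v := by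
    intro v
    unfold NW.deg
    rw [← SimpleGraph.card_neighborFinset_eq_degree]
    congr 1
    ext u
    simp [NW.mem_nbr]
  have hNL : NW.NL G.edgeFinset := fun e he => by
    rw [SimpleGraph.mem_edgeFinset] at he
    exact G.not_isDiag_of_mem_edgeSet he
  obtain ⟨T, hT, hTE, hTg⟩ := h1 (Fin n) G.edgeFinset
    ⟨hNL, fun v => by rw [hdegG]; exact heven v, hdvd⟩
    (by rwa [Fintype.card_fin])
    (fun v => by rw [Fintype.card_fin, hdegG]; exact hdeg v)
  refine ⟨T, ?_, ?_, hTg⟩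
  · intro t ht
    obtain ⟨hc, hs⟩ := hT.1 t ht
    refine ⟨?_, hc⟩
    intro a ha b hb hab
    have : s(a, b) ∈ G.edgeFinset := hs (NW.mk_mem_edg.2 ⟨ha, hb, hab⟩)
    simpa using this
  · intro u v huv
    have he : s(u, v) ∈ T.biUnion NW.edg := by
      rw [hTE]
      simpa using huv
    rw [mem_biUnion] at he
    obtain ⟨t, ht, hte⟩ := he
    rw [NW.mk_mem_edg] at hte
    refine ⟨t, ⟨ht, hte.1, hte.2.1⟩, ?_⟩
    rintro t' ⟨ht', hu', hv'⟩
    by_contra hne
    exact disjoint_left.1 (hT.2 t' ht' t ht hne)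
      (NW.mk_mem_edg.2 ⟨hu', hv', huv.ne⟩) (NW.mk_mem_edg.2 hte)

/-- everything: the list of all blocks -/
theorem simple_of (case : CaseStatement) (asm : AsmStatement) (nef : NEFStatement)
    (fx : FXStatement) (ft : FTStatement) (abn : ABNStatement) (abs : ABSStatement)
    (abg : ABGStatement) (abr : ABRStatement) (abt : ABTStatement) (hbn : HBNStatement)
    (hbs : HBSStatement) (hbg : HBGStatement) (hbr : HBRStatement) (hbt : HBTStatement)
    (val : ValStatement) : SimpleStatement :=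
  simple (main_of case (nresult asm nef abn hbn) (sresult asm nef abs hbs)
    (gresult asm fx abg hbg val) (rresult asm fx abr hbr val) (tresult asm ft abt hbt val))

end F3
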