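import Pool.Agent.F3.Inst.Gen
import Pool.Agent.F3.Inst.Adj

/-!
# Project F3: worlds N and S
-/

set_option autoImplicit false
set_option linter.unusedSectionVars false

namespace F3

open Finset NW F1

/-- the conclusion of the theorem for the graph `E` and sets with at most `J + 2` vertices -/
def Concl (J : ℕ) {V : Type} [Fintype V] [DecidableEq V] (E : Finset (Sym2 V)) : Prop :=
  ∃ 𝒯 : Finset (Finset V), NW.IsPack 𝒯 E ∧ 𝒯.biUnion NW.edg = E ∧
    ∀ U : Finset V, 4 ≤ U.card → U.card ≤ J + 2 → (𝒯.filter (fun t => t ⊆ U)).card + 2 < U.card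

/-- world N -/
def NResult : Prop :=
  ∀ (J : ℕ) (ρ θ : ℝ), 3 ≤ J → 0 < ρ → 0 < θ → ∃ n₀ : ℕ,
    ∀ (V : Type) [Fintype V] [DecidableEq V] (E : Finset (Sym2 V)), NW.Divis E →
      n₀ ≤ Fintype.card V → (∀ v, 3 * Fintype.card V ≤ 4 * NW.deg E v) → ¬ EX ρ E →
      RobN E θ → Concl J E

theorem nresult (hA : AsmStatement) (hN : NEFStatement) (hB : ABNStatement) (hH : HBNStatement) :
    NResult := by
  intro J ρ θ hJ hρ hθ
  obtain ⟨m, hm⟩ := hA 0
  obtain ⟨ηN, K, κ, hηN, hK, hκ, nN, hN⟩ := hN ρ hρ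
  obtain ⟨η₁, hη₁, hB⟩ := hB θ hθ
  obtain ⟨C, nB, hB⟩ := hB m
  obtain ⟨η₂, cv, hη₂, hcv, nH, hH, hP⟩ := hH θ hθ
  obtain ⟨B, nP, hB0, hP⟩ := hP (2 * (J + 3)) (by omega) ⟨J + 3, by ring⟩
  set η : ℝ := min η₁ η₂ with hη
  have hη0 : 0 < η := lt_min hη₁ hη₂
  obtain ⟨n₀, hm⟩ := hm J C η K κ cv B hJ hη0 hK hκ hcv hB0 (2 * (J + 3)) (by omega)
    ⟨J + 3, by ring⟩ (by omega)
  refine ⟨max n₀ (max nN (max nB (max nH nP))), fun V _ _ E hE hn hd hEX hR => ?_⟩
  have h1 : n₀ ≤ Fintype.card V := by omega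
  have h2 : nN ≤ Fintype.card V := by omega
  have h3 : nB ≤ Fintype.card V := by omega
  have h4 : nH ≤ Fintype.card V := by omega
  have h5 : nP ≤ Fintype.card V := by omega
  obtain ⟨hpiece, hvirt⟩ := hH V E h4 hR
  refine hm V (fun _ => True) (fun _ => True) E E ∅ g0 (fun _ => 0) h1 ?_
  refine
    { div := hE
      deg := hd
      H_sub := Subset.refl _
      E0_sub := empty_subset _
      tri := fun T _ _ j => j.elim0
      tot := fun j => j.elim0
      host :=
        { nl := hE.1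
          piece := hpiece.mono (min_le_right _ _)
          token := fun j => j.elim0
          abs := (hB V E h3 hR).mono (min_le_left _ _) (fun T h _ => h) (fun D _ h => h)
          val := fun D _ _ => ⟨fun j => j.elim0, Or.inl (by simp)⟩
          bd := fun j => j.elim0
          tri := fun T _ _ => ⟨fun j => j.elim0, by simp⟩ }
      tors := Tors.none (fun _ => rfl)
      place := PlOK.mono (by omega) ⟨J + 3, by ring⟩ hB0.le (hP V E h5 hR) (min_le_right _ _)
        (fun T h _ => h)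
      virt := hvirt
      adj := fun X _ _ => adj0
      frac := ?_ }
  intro R _ hR2 _ Bd hBd
  refine hN V E hE.1 h2 (fun v => ?_) hEX R Bd hR2 hBd
  have h6 : (3 : ℝ) * nn V ≤ 4 * (NW.deg E v : ℝ) := by
    unfold nn
    exact_mod_cast hd v
  have h7 := nnV_nonneg V
  nlinarith

/-- world S -/
def SResult : Prop :=
  ∀ (J : ℕ) (ρ θ : ℝ), 3 ≤ J → 0 < ρ → 0 < θ → ∃ ε : ℝ, 0 < ε ∧ ∃ n₀ : ℕ,
    ∀ (V : Type) [Fintype V] [DecidableEq V] (E H : Finset (Sym2 V)) (sd : V → Bool)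
      (At : Finset V), NW.Divis E →
      n₀ ≤ Fintype.card V → (∀ v, 3 * Fintype.card V ≤ 4 * NW.deg E v) → ¬ EX ρ E →
      WS E H sd At ε θ → Concl J E

theorem sresult (hA : AsmStatement) (hN : NEFStatement) (hB : ABSStatement) (hH : HBSStatement) :
    SResult := by
  intro J ρ θ hJ hρ hθ
  obtain ⟨m, hm⟩ := hA 0
  obtain ⟨ηN, K, κ, hηN, hK, hκ, nN, hN⟩ := hN ρ hρ
  obtain ⟨ε₁, η₁, hε₁, hη₁, hB⟩ := hB θ hθ
  obtain ⟨C, nB, hB⟩ := hB m
  obtain ⟨ε₂, η₂, cv, hε₂, hη₂, hcv, nH, hH, hP⟩ := hH θ hθ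
  obtain ⟨B, nP, hB0, hP⟩ := hP (2 * (J + 3)) (by omega) ⟨J + 3, by ring⟩
  set η : ℝ := min η₁ η₂ with hη
  have hη0 : 0 < η := lt_min hη₁ hη₂
  obtain ⟨n₀, hm⟩ := hm J C η K κ cv B hJ hη0 hK hκ hcv hB0 (2 * (J + 3)) (by omega)
    ⟨J + 3, by ring⟩ (by omega)
  refine ⟨min ε₁ ε₂, lt_min hε₁ hε₂, max n₀ (max nN (max nB (max nH nP))),
    fun V _ _ E H sd At hE hn hd hEX hR => ?_⟩
  have h1 : n₀ ≤ Fintype.card V := by omega
  have h2 : nN ≤ Fintype.card V := by omega
  have h3 : nB ≤ Fintype.card V := by omega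
  have h4 : nH ≤ Fintype.card V := by omega
  have h5 : nP ≤ Fintype.card V := by omega
  obtain ⟨hpiece, hvirt⟩ := hH V E H sd At h4 hE.1 (hR.mono (min_le_right _ _))
  have hHE : H ⊆ E := by
    rw [hR.H_eq]
    exact filter_subset _ _
  refine hm V (fun _ => True) (fun _ => True) E H ∅ g0 (fun _ => 0) h1 ?_
  refine
    { div := hE
      deg := hd
      H_sub := hHE
      E0_sub := empty_subset _
      tri := fun T _ _ j => j.elim0
      tot := fun j => j.elim0
      host :=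
        { nl := hR.rob.nl
          piece := hpiece.mono (min_le_right _ _)
          token := fun j => j.elim0
          abs := (hB V E H sd At h3 (hR.mono (min_le_left _ _))).mono (min_le_left _ _)
            (fun T h _ => h) (fun D _ h => h)
          val := fun D _ _ => ⟨fun j => j.elim0, Or.inl (by simp)⟩
          bd := fun j => j.elim0
          tri := fun T _ _ => ⟨fun j => j.elim0, by simp⟩ }
      tors := Tors.none (fun _ => rfl)
      place := PlOK.mono (by omega) ⟨J + 3, by ring⟩ hB0.le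
        (hP V E H sd At h5 (hR.mono (min_le_right _ _))) (min_le_right _ _) (fun T h _ => h)
      virt := hvirt
      adj := fun X _ _ => adj0
      frac := ?_ }
  intro R _ hR2 _ Bd hBd
  refine hN V E hE.1 h2 (fun v => ?_) hEX R Bd hR2 hBd
  have h6 : (3 : ℝ) * nn V ≤ 4 * (NW.deg E v : ℝ) := by
    unfold nn
    exact_mod_cast hd v
  have h7 := nnV_nonneg V
  nlinarith

end F3
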