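import Pool.Agent.F3.Inst.G

/-!
# Project F3: world R
-/

set_option autoImplicit false
set_option linter.unusedSectionVars false

namespace F3

open Finset NW F1

section X

variable {V : Type} [Fintype V] [DecidableEq V]

theorem Co_symm {fl : Bool → Bool} {sd pt : V → Bool} {u v : V} (h : Co fl sd pt u v) :
    Co fl sd pt v u := by
  unfold Co CoP at h ⊢
  by_cases hs : sd u = sd v
  · right
    rcases h with h | h
    · exact absurd hs h
    · rw [hs]
      split_ifs at h ⊢ with hf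
      · exact h.symm
      · exact Ne.symm h
  · exact Or.inl (fun hh => hs hh.symm)

/-- the edges of `H` are core -/
theorem WR.core {E De H : Finset (Sym2 V)} {fl : Bool → Bool} {sd pt : V → Bool} {At : Finset V}
    {e₀ : Sym2 V} {ε θ c : ℝ} (h : WR E De H fl sd pt At e₀ ε θ c) {e : Sym2 V} (he : e ∈ H) :
    ∀ u ∈ e, ∀ v ∈ e, u ≠ v → Co fl sd pt u v := by
  rw [h.H_eq, mem_filter] at he
  exact he.2.2

theorem WR.e₀_nd {E De H : Finset (Sym2 V)} {fl : Bool → Bool} {sd pt : V → Bool}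
    {At : Finset V} {e₀ : Sym2 V} {ε θ c : ℝ} (h : WR E De H fl sd pt At e₀ ε θ c) :
    ¬ e₀.IsDiag := h.x.div.1 e₀ (mem_sdiff.1 h.e₀_mem).1

theorem WR.e₀_nmem {E De H : Finset (Sym2 V)} {fl : Bool → Bool} {sd pt : V → Bool}
    {At : Finset V} {e₀ : Sym2 V} {ε θ c : ℝ} (h : WR E De H fl sd pt At e₀ ε θ c) : e₀ ∉ H := by
  intro he
  have h1 := h.core he
  have h2 := h.e₀_nd
  have h3 := h.e₀_exc.2
  induction e₀ using Sym2.ind with
  | _ u v =>
    rw [Sym2.mk_isDiag_iff] at h2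
    exact h3 u v rfl (h1 u (by simp) v (by simp) h2)

theorem WR.spec {E De H : Finset (Sym2 V)} {fl : Bool → Bool} {sd pt : V → Bool}
    {At : Finset V} {e₀ : Sym2 V} {ε θ c : ℝ} (h : WR E De H fl sd pt At e₀ ε θ c) :
    Spec0 H fl sd pt At e₀ c :=
  ⟨h.e₀_typ, h.e₀_exc.1, h.e₀_nd, h.e₀_exc.2, h.e₀_apex⟩

end X

/-- world R -/
def RResult : Prop :=
  ∀ (J : ℕ) (θ c : ℝ), 3 ≤ J → 0 < θ → 0 < c → ∃ ε : ℝ, 0 < ε ∧ ∃ n₀ : ℕ,
    ∀ (V : Type) [Fintype V] [DecidableEq V] (E De H : Finset (Sym2 V)) (fl : Bool → Bool)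
      (sd pt : V → Bool) (At : Finset V) (e₀ : Sym2 V), n₀ ≤ Fintype.card V →
      WR E De H fl sd pt At e₀ ε θ c → Concl J E

theorem rresult (hA : AsmStatement) (hF : FXStatement) (hB : ABRStatement) (hH : HBRStatement)
    (hVal : ValStatement) : RResult := by
  intro J θ c hJ hθ hc
  obtain ⟨m, hm⟩ := hA 1
  obtain ⟨ε₀, K, κ, hε₀, hK, hκ, nF, hF⟩ := hF θ c hθ hc
  obtain ⟨ε₁, η₁, hε₁, hη₁, hB⟩ := hB c hc
  obtain ⟨C, nB, hB⟩ := hB m
  obtain ⟨ε₂, η₂, cv, hε₂, hη₂, hcv, nH, hH, hP⟩ := hH θ c hθ hc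
  obtain ⟨B, nP, hB0, hP⟩ := hP (2 * (J + 3)) (by omega) ⟨J + 3, by ring⟩
  set η : ℝ := min η₁ η₂ with hη
  have hη0 : 0 < η := lt_min hη₁ hη₂
  obtain ⟨n₀, hm⟩ := hm J C η K κ cv B hJ hη0 hK hκ hcv hB0 (2 * (J + 3)) (by omega)
    ⟨J + 3, by ring⟩ (by omega)
  set ε : ℝ := min (min ε₀ ε₁) (min ε₂ (1 / 8)) with hε
  have hεp : 0 < ε := lt_min (lt_min hε₀ hε₁) (lt_min hε₂ (by norm_num))
  have hε0 : ε ≤ ε₀ := (min_le_left _ _).trans (min_le_left _ _)
  have hε1 : ε ≤ ε₁ := (min_le_left _ _).trans (min_le_right _ _)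
  have hε2 : ε ≤ ε₂ := (min_le_right _ _).trans (min_le_left _ _)
  have hε3 : ε ≤ 1 / 8 := (min_le_right _ _).trans (min_le_right _ _)
  refine ⟨ε, hεp, max (max 1 n₀) (max nF (max nB (max nH nP))),
    fun V _ _ E De H fl sd pt At e₀ hn hR => ?_⟩
  have h0 : 1 ≤ Fintype.card V := by omega
  have h1 : n₀ ≤ Fintype.card V := by omega
  have h2 : nF ≤ Fintype.card V := by omega
  have h3 : nB ≤ Fintype.card V := by omega
  have h4 : nH ≤ Fintype.card V := by omega
  have h5 : nP ≤ Fintype.card V := by omega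
  obtain ⟨hpiece, hvirt, htok, htok2⟩ := hH V E De H fl sd pt At e₀ h4 (hR.mono hε2)
  obtain ⟨v1, v2, v3, v4, v5, v6, v7⟩ := hVal V
  obtain ⟨habs, habs0⟩ := hB V H fl sd pt At h3 hR.flD (hR.rob.mono hε1)
  have hHD : H ⊆ E \ De := hR.x.H_sub
  have hHE : H ⊆ E := hHD.trans sdiff_subset
  have he₀ : e₀ ∉ De := (mem_sdiff.1 hR.e₀_mem).2
  have hHe : H ∪ {e₀} ⊆ E \ De := union_subset hHD (singleton_subset_iff.2 hR.e₀_mem)
  have hdisj : ∀ D, D ⊆ H ∪ {e₀} → Disjoint D De := fun D hD =>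
    disjoint_of_subset_left (hD.trans hHe) disjoint_sdiff_self_left
  have hsum : ∀ D, D ⊆ H ∪ {e₀} → ∑ e ∈ D, gamX De sd e = ∑ e ∈ D, gam sd e := fun D hD =>
    sum_gamX sd (hdisj D hD)
  have hsum' : ∀ D, D ⊆ H → ∑ e ∈ D, gamX De sd e = ∑ e ∈ D, gam sd e := fun D hD =>
    hsum D (hD.trans subset_union_left)
  have hins : ∀ D, D ⊆ H → insert e₀ D ⊆ H ∪ {e₀} := fun D hD =>
    insert_subset (mem_union_right _ (mem_singleton_self _)) (hD.trans subset_union_left)
  have hgood : ∀ D, D ⊆ H → Good0 (gX De sd) (tau fl sd pt) D →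
      Good0 (g1 sd) (tau fl sd pt) D := by
    intro D hD hg
    refine ⟨hg.1, fun j => ?_, hg.2.2⟩
    have := hg.2.1 j
    unfold gX at this
    unfold g1
    rwa [hsum' D hD] at this
  have hnotin : ∀ T : Tri V, alR0 fl sd pt e₀ T → NW.edg T.1 ⊆ H → alR fl sd pt T := by
    intro T hT hTH
    rcases hT with hT | ⟨-, hT⟩
    · exact hT
    · exact absurd (hTH hT) hR.e₀_nmem
  have hcore : ∀ D, D ⊆ H → ∀ u v, s(u, v) ∈ D → Co fl sd pt u v := by
    intro D hD u v huv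
    refine hR.core (hD huv) u (by simp) v (by simp) ?_
    rintro rfl
    exact hR.rob.nl _ (hD huv) (by simp)
  refine hm V (alX De sd) (alR0 fl sd pt e₀) E H {e₀} (gX De sd) (tau fl sd pt) h1 ?_
  refine
    { div := hR.x.div
      deg := hR.x.deg3
      H_sub := hHE
      E0_sub := singleton_subset_iff.2 (mem_sdiff.2 ⟨(mem_sdiff.1 hR.e₀_mem).1, hR.e₀_nmem⟩)
      tri := fun T hT _ _ => v7 De sd T hR.x.De_int hT
      tot := fun _ => hR.x.totX
      host :=
        { nl := hR.rob.nl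
          piece := hpiece.mono (min_le_right _ _)
          token := fun j σ hσ => (htok j σ hσ).mono (min_le_right _ _) (fun e he _ =>
            gamX_eq sd (mem_sdiff.1 (hHD he)).2)
          abs := habs.mono (min_le_left _ _) (fun T h _ => Or.inl h) hgood
          val := fun D hD hDiv => ⟨fun _ => by
            show (6 : ℤ) ∣ ∑ e ∈ D, gamX De sd e
            rw [hsum' D hD]
            exact v1 sd D hDiv, v3 fl sd pt D hR.flD hDiv.1 (hcore D hD) hDiv.2.1⟩
          bd := fun _ e => abs_gamX_le De sd e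
          tri := fun T hT hTH => by
            have hT' := hnotin T hT hTH
            refine ⟨fun _ => ?_, v4 fl sd pt T hR.flD hT'⟩
            show ∑ e ∈ NW.edg T.1, gamX De sd e = 0
            rw [hsum' _ hTH]
            exact v2 sd T hT'.1 }
      tors := Tors.some e₀ hR.e₀_nmem hR.e₀_nd ?_ ?_ ?_
      place := PlOK.mono (by omega) ⟨J + 3, by ring⟩ hB0.le
        (hP V E De H fl sd pt At e₀ h5 (hR.mono hε2)) (min_le_right _ _)
        (fun T h hTH => Or.inl ⟨h, hdisj _ hTH⟩)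
      virt := hvirt
      adj := fun X hXH hX => hR.x.adj hε3 h0 hXH hX
      frac := ?_ }
  · intro D hD hDiv _
    show (6 : ℤ) ∣ ∑ e ∈ insert e₀ D, gamX De sd e
    rw [hsum _ (hins D hD)]
    exact v1 sd _ hDiv
  · exact htok2.mono (min_le_right _ _) (fun e he _ => gamX_eq sd (mem_sdiff.1 (hHD he)).2)
  · intro Z F U hZ hF hU hU0
    obtain ⟨A, a1, a2, a3, a4, a5, a6, a7⟩ := habs0 e₀ hR.spec Z F U (hZ.mono (min_le_left _ _))
      (hF.mono (min_le_left _ _)) hU hU0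
    refine ⟨A, a1, a2, a3, a4, a5, fun j => ?_, fun D hD hDU hDiv hD0 => ?_⟩
    · have := a6 j
      unfold g1 at this
      unfold gX
      rwa [hsum' A (a1.trans sdiff_subset)]
    · refine a7 D hD hDU hDiv (fun j => ?_)
      have := hD0 j
      unfold gX at this
      unfold g1
      rwa [hsum _ (hins D hD)] at this
  · intro R hR1 hR2 hR3 Bd hBd
    refine hF V E De H R sd At Bd h2 (hR.x.mono hε0) (hR1.trans hHe) hR2 ?_ hBd
    have := hR3 0
    unfold gX at this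
    rwa [hsum R hR1] at this

end F3
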